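import Pool.Agent.Helper99.EXC.GoalsK

/-!
# EXC, packet LOG: the logarithmic growth of the potential kernel
-/

open Finset hiding box
open MeasureTheory

namespace Pool.Agent.Helper45.EXC

open Pool.Agent.Helper99.ERW Pool.Agent.Helper99.EXC

lemma one_sub_cos_le_abs (u : ℝ) : |1 - Real.cos u| ≤ |u| := by
  have h0 : 0 ≤ 1 - Real.cos u := by linarith [Real.cos_le_one u]
  rw [abs_of_nonneg h0]
  rcases le_total |u| 2 with h | h
  · have h1 := Real.one_sub_sq_div_two_le_cos (x := u)
    have h2 : u ^ 2 = |u| * |u| := by rw [← sq_abs]; ring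
    nlinarith [abs_nonneg u]
  · linarith [Real.neg_one_le_cos u]

lemma one_sub_pow_le {r : ℝ} (h0 : 0 ≤ r) (n : ℕ) : 1 - r ^ n ≤ n * (1 - r) := by
  have := one_add_mul_le_pow (a := r - 1) (by linarith) n
  have e : 1 + (r - 1) = r := by ring
  rw [e] at this
  linarith

theorem LOG (hRHO : RHO_stmt) (hINT : INT_stmt) : LOG_stmt := by
  intro a ha0 ha1
  obtain ⟨hdc, hrc, hde, hre, hdn, hrp, hr1, _, _, c, C, hc, hC, hb⟩ := hRHO a ha0 ha1
  obtain ⟨hII, hpot0, hpx, hpy⟩ := hINT a ha0 ha1
  set q : ℝ := Real.sqrt (a * (1 - a)) with hq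
  have hq0 : 0 < q := Real.sqrt_pos.mpr (mul_pos ha0 (by linarith))
  have hpi := Real.pi_pos
  have hpi3 := Real.pi_gt_three
  have hlogpi : 0 ≤ Real.log Real.pi := Real.log_nonneg (by linarith)
  set K : ℝ := (C + 1) / c + (2 * C * Real.pi + 1 / (c * q)) + Real.log Real.pi / q with hK
  have hK0 : 0 ≤ K := by positivity
  -- the main estimate
  have main : ∀ (x : ℤ) (n : ℕ), 1 ≤ n → |(x : ℝ)| ≤ n →
      |(∫ θ in (0 : ℝ)..Real.pi, (1 - rho a θ ^ n * Real.cos (x * θ)) / dd a θ) -
        1 / q * Real.log n| ≤ K := by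
    intro x n hn hx
    have hn0 : (0 : ℝ) < n := by exact_mod_cast hn
    have hn1 : (1 : ℝ) ≤ n := by exact_mod_cast hn
    set F : ℝ → ℝ := fun θ => (1 - rho a θ ^ n * Real.cos (x * θ)) / dd a θ with hF
    have hinv0 : (0 : ℝ) < 1 / n := by positivity
    have hinv1 : (1 : ℝ) / n ≤ 1 := by
      rw [div_le_one hn0]; exact hn1
    have hFI : IntervalIntegrable F volume (-Real.pi) Real.pi := hII x n
    have hsub : ∀ u v : ℝ, -Real.pi ≤ u → u ≤ v → v ≤ Real.pi →
        IntervalIntegrable F volume u v := by
      intro u v h1 h2 h3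
      refine hFI.mono_set ?_
      rw [Set.uIcc_of_le h2, Set.uIcc_of_le (by linarith)]
      exact Set.Icc_subset_Icc h1 h3
    have i1 := hsub 0 (1 / n) (by linarith) hinv0.le (by linarith)
    have i2 := hsub (1 / n) Real.pi (by linarith) (by linarith) le_rfl
    rw [← intervalIntegral.integral_add_adjacent_intervals i1 i2]
    -- part 1
    have p1 : |∫ θ in (0 : ℝ)..(1 / n), F θ| ≤ (C + 1) / c := by
      have h1 : ∀ θ ∈ Set.uIoc (0 : ℝ) (1 / n), ‖F θ‖ ≤ n * (C + 1) / c := by
        intro θ hθ
        rw [Set.uIoc_of_le hinv0.le] at hθ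
        obtain ⟨t0, t1⟩ := hθ
        have habs : |θ| = θ := abs_of_pos t0
        have hθpi : |θ| ≤ Real.pi := by rw [habs]; linarith
        obtain ⟨b1, b2, b3, b4, b5⟩ := hb θ hθpi
        rw [habs] at b1 b2 b3
        have hdpos : 0 < dd a θ := lt_of_lt_of_le (mul_pos hc t0) b1
        rw [Real.norm_eq_abs, hF]
        simp only
        rw [abs_div, abs_of_pos hdpos, div_le_div_iff₀ hdpos hc]
        have h2 : |1 - rho a θ ^ n * Real.cos (x * θ)| ≤ n * (C * θ) + n * θ := by
          have e : 1 - rho a θ ^ n * Real.cos (x * θ) =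
              (1 - rho a θ ^ n) + rho a θ ^ n * (1 - Real.cos (x * θ)) := by ring
          rw [e]
          refine (abs_add_le _ _).trans (add_le_add ?_ ?_)
          · have h3 : rho a θ ^ n ≤ 1 := pow_le_one₀ (hrp θ).le (hr1 θ)
            rw [abs_of_nonneg (by linarith)]
            exact (one_sub_pow_le (hrp θ).le n).trans
              (mul_le_mul_of_nonneg_left b3 (by positivity))
          · rw [abs_mul, abs_of_pos (pow_pos (hrp θ) n)]
            have h3 : rho a θ ^ n ≤ 1 := pow_le_one₀ (hrp θ).le (hr1 θ)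
            have h4 := one_sub_cos_le_abs (x * θ)
            rw [abs_mul, habs] at h4
            calc rho a θ ^ n * |1 - Real.cos (x * θ)| ≤ 1 * (n * θ) := by
                  refine mul_le_mul h3 (h4.trans ?_) (abs_nonneg _) (by norm_num)
                  exact mul_le_mul_of_nonneg_right hx t0.le
              _ = n * θ := one_mul _
        calc |1 - rho a θ ^ n * Real.cos (x * θ)| * c ≤ (n * (C * θ) + n * θ) * c :=
              mul_le_mul_of_nonneg_right h2 hc.le
          _ = n * (C + 1) * (c * θ) := by ring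
          _ ≤ n * (C + 1) * dd a θ := mul_le_mul_of_nonneg_left b1 (by positivity)
      have h2 := intervalIntegral.norm_integral_le_of_norm_le_const h1
      rw [Real.norm_eq_abs, sub_zero, abs_of_pos hinv0] at h2
      refine h2.trans (le_of_eq ?_)
      field_simp
    -- part 2
    have p2 : |(∫ θ in (1 / n : ℝ)..Real.pi, F θ) - 1 / q * (Real.log Real.pi + Real.log n)| ≤
        2 * C * Real.pi + 1 / (c * q) := by
      have hle : (1 / n : ℝ) ≤ Real.pi := by linarith
      have hinvI : IntervalIntegrable (fun θ : ℝ => 1 / q * θ⁻¹) volume (1 / n) Real.pi := by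
        refine ContinuousOn.intervalIntegrable ?_
        rw [Set.uIcc_of_le hle]
        refine continuousOn_const.mul (continuousOn_id.inv₀ fun θ hθ => ?_)
        exact (lt_of_lt_of_le hinv0 hθ.1).ne'
      have e1 : ∫ θ in (1 / n : ℝ)..Real.pi, 1 / q * θ⁻¹ =
          1 / q * (Real.log Real.pi + Real.log n) := by
        rw [intervalIntegral.integral_const_mul, integral_inv_of_pos hinv0 hpi]
        congr 1
        rw [Real.log_div hpi.ne' hinv0.ne', one_div, Real.log_inv]
        ring
      rw [← e1, ← intervalIntegral.integral_sub i2 hinvI]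
      set G : ℝ → ℝ := fun θ => 2 * C + n / q * Real.exp (-(c * n) * θ) with hG
      have hGc : Continuous G := by
        rw [hG]; fun_prop
      have hGI : IntervalIntegrable G volume (1 / n) Real.pi := hGc.intervalIntegrable _ _
      have hbd : ∀ᵐ θ ∂volume, θ ∈ Set.Ioc (1 / n : ℝ) Real.pi → ‖F θ - 1 / q * θ⁻¹‖ ≤ G θ := by
        refine Filter.Eventually.of_forall fun θ hθ => ?_
        obtain ⟨t1, t2⟩ := hθ
        have t0 : 0 < θ := hinv0.trans t1
        have habs : |θ| = θ := abs_of_pos t0
        obtain ⟨b1, b2, b3, b4, b5⟩ := hb θ (by rw [habs]; exact t2)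
        have b5' := b5 t0.ne'
        have b4' := b4 n
        rw [habs] at b1 b4' b5'
        have hdpos : 0 < dd a θ := lt_of_lt_of_le (mul_pos hc t0) b1
        have hcos := Real.abs_cos_le_one (x * θ)
        have hrn0 : 0 < rho a θ ^ n := pow_pos (hrp θ) n
        have hrn1 : rho a θ ^ n ≤ 1 := pow_le_one₀ (hrp θ).le (hr1 θ)
        have e2 : F θ - 1 / q * θ⁻¹ =
            (1 - rho a θ ^ n * Real.cos (x * θ)) * (1 / dd a θ - 1 / (q * θ)) -
              rho a θ ^ n * Real.cos (x * θ) * (1 / (q * θ)) := by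
          rw [hF]
          simp only
          field_simp
          ring
        rw [e2, Real.norm_eq_abs]
        refine (abs_sub _ _).trans ?_
        rw [hG]
        simp only
        refine add_le_add ?_ ?_
        · rw [abs_mul]
          have h1 : |rho a θ ^ n * Real.cos (x * θ)| ≤ 1 := by
            rw [abs_mul, abs_of_pos hrn0]
            calc rho a θ ^ n * |Real.cos (x * θ)| ≤ 1 * 1 :=
                  mul_le_mul hrn1 hcos (abs_nonneg _) (by norm_num)
              _ = 1 := one_mul _
          have h2 : |1 - rho a θ ^ n * Real.cos (x * θ)| ≤ 2 := by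
            refine (abs_sub _ _).trans ?_
            rw [abs_one]
            linarith
          exact mul_le_mul h2 b5' (abs_nonneg _) (by norm_num)
        · rw [abs_mul, abs_mul, abs_of_pos hrn0, abs_of_pos (by positivity : 0 < 1 / (q * θ))]
          have h1 : 1 / (q * θ) ≤ n / q := by
            rw [div_le_div_iff₀ (by positivity) hq0]
            have h3 : 1 ≤ n * θ := by
              rw [div_lt_iff₀ hn0] at t1
              linarith
            nlinarith
          have h2 : rho a θ ^ n * |Real.cos (x * θ)| ≤ Real.exp (-(c * n) * θ) := by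
            have e3 : -(c * n) * θ = -(c * n * θ) := by ring
            rw [e3]
            calc rho a θ ^ n * |Real.cos (x * θ)| ≤ Real.exp (-(c * n * θ)) * 1 :=
                  mul_le_mul b4' hcos (abs_nonneg _) (Real.exp_pos _).le
              _ = _ := mul_one _
          calc rho a θ ^ n * |Real.cos (x * θ)| * (1 / (q * θ))
              ≤ Real.exp (-(c * n) * θ) * (n / q) :=
                mul_le_mul h2 h1 (by positivity) (Real.exp_pos _).le
            _ = n / q * Real.exp (-(c * n) * θ) := mul_comm _ _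
      have h3 := intervalIntegral.norm_integral_le_of_norm_le hle hbd hGI
      rw [Real.norm_eq_abs] at h3
      refine h3.trans ?_
      have hcn : c * n ≠ 0 := by positivity
      have h4 : ∫ θ in (1 / n : ℝ)..Real.pi, G θ =
          (2 * C * Real.pi + -(1 / (c * q)) * Real.exp (-(c * n) * Real.pi)) -
            (2 * C * (1 / n) + -(1 / (c * q)) * Real.exp (-(c * n) * (1 / n))) := by
        refine intervalIntegral.integral_eq_sub_of_hasDerivAt
          (f := fun θ => 2 * C * θ + -(1 / (c * q)) * Real.exp (-(c * n) * θ)) (fun θ _ => ?_) hGI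
        have d1 : HasDerivAt (fun θ : ℝ => -(c * n) * θ) (-(c * n)) θ := by
          simpa using (hasDerivAt_id θ).const_mul (-(c * n))
        have d2 := (d1.exp).const_mul (-(1 / (c * q)))
        have d3 : HasDerivAt (fun θ : ℝ => 2 * C * θ) (2 * C) θ := by
          simpa using (hasDerivAt_id θ).const_mul (2 * C)
        have d4 : HasDerivAt (fun θ => 2 * C * θ + -(1 / (c * q)) * Real.exp (-(c * n) * θ))
            (2 * C + -(1 / (c * q)) * (Real.exp (-(c * n) * θ) * -(c * n))) θ := d3.add d2
        have e4 : 2 * C + -(1 / (c * q)) * (Real.exp (-(c * n) * θ) * -(c * n)) = G θ := by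
          rw [hG]
          field_simp
        rw [← e4]
        exact d4
      rw [h4]
      have h5 : 0 < Real.exp (-(c * n) * Real.pi) := Real.exp_pos _
      have h6 : Real.exp (-(c * n) * (1 / n)) ≤ 1 := by
        refine Real.exp_le_one_iff.mpr ?_
        have : 0 ≤ c * n * (1 / n) := by positivity
        linarith
      have h7 : (0 : ℝ) < 1 / (c * q) := by positivity
      have h8 : 0 ≤ 2 * C * (1 / n) := by positivity
      nlinarith [mul_pos h7 h5, mul_le_mul_of_nonneg_left h6 h7.le]
    -- together
    have e : ((∫ θ in (0 : ℝ)..(1 / n), F θ) + ∫ θ in (1 / n : ℝ)..Real.pi, F θ) -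
        1 / q * Real.log n = (∫ θ in (0 : ℝ)..(1 / n), F θ) +
        ((∫ θ in (1 / n : ℝ)..Real.pi, F θ) - 1 / q * (Real.log Real.pi + Real.log n)) +
        Real.log Real.pi / q := by ring
    rw [e, hK]
    refine (abs_add_le _ _).trans (add_le_add ((abs_add_le _ _).trans (add_le_add p1 p2)) ?_)
    rw [abs_of_nonneg (by positivity)]
  refine ⟨K / Real.pi + Real.log 2 / (Real.pi * q), fun x hx => ?_⟩
  have hlog2 : 0 < Real.log 2 := Real.log_pos (by norm_num)
  have hnm : nm x = |(x 1 : ℝ)| := by
    unfold nm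
    exact max_eq_right (by exact_mod_cast hx)
  rw [hnm]
  have hna : |(x 1 : ℝ)| = ((x 1).natAbs : ℝ) := by
    rw [Nat.cast_natAbs]; push_cast; rfl
  rw [hna]
  have hkap : kap a * Real.logb 2 (1 + ((x 1).natAbs : ℝ)) =
      1 / (Real.pi * q) * Real.log (1 + ((x 1).natAbs : ℝ)) := by
    unfold kap Real.logb
    rw [← hq]
    field_simp
  rw [hkap]
  rcases Nat.eq_zero_or_pos (x 1).natAbs with h0 | hn
  · have hx1 : x 1 = 0 := Int.natAbs_eq_zero.mp h0
    have hx0 : x 0 = 0 := by
      rw [hx1, abs_zero] at hx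
      exact abs_eq_zero.mp (le_antisymm hx (abs_nonneg _))
    unfold ph
    rw [hx0, hx1, hpot0]
    simp only [Int.natAbs_zero, Nat.cast_zero, add_zero, Real.log_one, mul_zero, sub_zero, abs_zero]
    positivity
  · have hx' : |(x 0 : ℝ)| ≤ ((x 1).natAbs : ℝ) := by
      rw [← hna]; exact_mod_cast hx
    have hm := main (x 0) (x 1).natAbs hn hx'
    set n := (x 1).natAbs with hndef
    have hn0 : (0 : ℝ) < n := by exact_mod_cast hn
    set I : ℝ := ∫ θ in (0 : ℝ)..Real.pi, (1 - rho a θ ^ n * Real.cos (x 0 * θ)) / dd a θ with hI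
    have hpot : ph a x = 1 / Real.pi * I := by
      unfold ph pot
      rw [← hndef]
      have hFI := hII (x 0) n
      have hs1 : IntervalIntegrable (fun θ => (1 - rho a θ ^ n * Real.cos (x 0 * θ)) / dd a θ)
          volume (-Real.pi) 0 := by
        refine hFI.mono_set ?_
        rw [Set.uIcc_of_le (by linarith), Set.uIcc_of_le (by linarith)]
        exact Set.Icc_subset_Icc le_rfl (by linarith)
      have hs2 : IntervalIntegrable (fun θ => (1 - rho a θ ^ n * Real.cos (x 0 * θ)) / dd a θ)
          volume 0 Real.pi := by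
        refine hFI.mono_set ?_
        rw [Set.uIcc_of_le (by linarith), Set.uIcc_of_le (by linarith)]
        exact Set.Icc_subset_Icc (by linarith) le_rfl
      rw [← intervalIntegral.integral_add_adjacent_intervals hs1 hs2]
      have e1 : ∫ θ in (-Real.pi)..0, (1 - rho a θ ^ n * Real.cos (x 0 * θ)) / dd a θ = I := by
        have h1 := intervalIntegral.integral_comp_neg
          (fun θ => (1 - rho a θ ^ n * Real.cos (x 0 * θ)) / dd a θ) (a := 0) (b := Real.pi)
        rw [neg_zero] at h1
        rw [← h1, hI]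
        refine intervalIntegral.integral_congr fun θ _ => ?_
        show (1 - rho a (-θ) ^ n * Real.cos (x 0 * -θ)) / dd a (-θ) =
          (1 - rho a θ ^ n * Real.cos (x 0 * θ)) / dd a θ
        rw [hde, hre, mul_neg, Real.cos_neg]
      rw [e1]
      field_simp
      ring
    rw [hpot]
    have hl : Real.log (1 + (n : ℝ)) = Real.log n + Real.log (1 + 1 / n) := by
      rw [← Real.log_mul hn0.ne' (by positivity)]
      congr 1
      field_simp
      ring
    have hl0 : 0 ≤ Real.log (1 + 1 / (n : ℝ)) :=
      Real.log_nonneg (by have : (0 : ℝ) ≤ 1 / n := by positivity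
                          linarith)
    have hl1 : Real.log (1 + 1 / (n : ℝ)) ≤ Real.log 2 := by
      refine Real.log_le_log (by positivity) ?_
      have : (1 : ℝ) / n ≤ 1 := by
        rw [div_le_one hn0]; exact_mod_cast hn
      linarith
    have e2 : 1 / Real.pi * I - 1 / (Real.pi * q) * Real.log (1 + (n : ℝ)) =
        1 / Real.pi * (I - 1 / q * Real.log n) -
          1 / (Real.pi * q) * Real.log (1 + 1 / (n : ℝ)) := by
      rw [hl]
      field_simp
      ring
    rw [e2]
    refine (abs_sub _ _).trans (add_le_add ?_ ?_)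
    · rw [abs_mul, abs_of_pos (by positivity : 0 < 1 / Real.pi)]
      calc 1 / Real.pi * |I - 1 / q * Real.log n| ≤ 1 / Real.pi * K :=
            mul_le_mul_of_nonneg_left hm (by positivity)
        _ = K / Real.pi := by ring
    · rw [abs_mul, abs_of_pos (by positivity : 0 < 1 / (Real.pi * q)), abs_of_nonneg hl0]
      calc 1 / (Real.pi * q) * Real.log (1 + 1 / (n : ℝ)) ≤ 1 / (Real.pi * q) * Real.log 2 :=
            mul_le_mul_of_nonneg_left hl1 (by positivity)
        _ = Real.log 2 / (Real.pi * q) := by ring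

end Pool.Agent.Helper45.EXC
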