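import Pool.Agent.Helper99.EXC.GoalsD

/-!
# EXC, packet NEA: symmetrisation of the time ordered double sum
-/

open Finset hiding box

namespace Pool.Agent.Helper45.EXC

open Pool.Agent.Helper99.ERW Pool.Agent.Helper99.EXC

/-! ### Boxes and the sup norm -/

lemma nm_nonneg (x : Site 2) : 0 ≤ nm x := (abs_nonneg _).trans (le_max_left _ _)

lemma nm_zero : nm 0 = 0 := by simp [nm]

lemma nm_neg (x : Site 2) : nm (-x) = nm x := by
  simp [nm]

lemma card_box (n : ℕ) : ((box 2 n).card : ℝ) = (2 * n + 1) ^ 2 := by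
  unfold box
  rw [Fintype.card_piFinset]
  simp only [Int.card_Icc, Finset.prod_const, Finset.card_univ, Fintype.card_fin]
  have : ((n : ℤ) + 1 - -(n : ℤ)).toNat = 2 * n + 1 := by omega
  rw [this]
  push_cast
  ring

lemma box_mono {m n : ℕ} (h : m ≤ n) : box 2 m ⊆ box 2 n := by
  intro x hx
  rw [mem_box] at hx ⊢
  intro l
  have := hx l
  omega

lemma Bx_mono (b : ℕ) {k s : ℕ} (h : k ≤ s) : Bx b k ⊆ Bx b s := by
  unfold Bx
  exact box_mono (Nat.mul_le_mul_left _ (Nat.pow_le_pow_right (by norm_num) h))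

lemma le_nm {n : ℕ} {x : Site 2} (h : x ∉ box 2 n) : (n : ℝ) + 1 ≤ nm x := by
  rw [mem_box] at h
  push Not at h
  obtain ⟨l, hl⟩ := h
  have h1 : ((n : ℤ) + 1 : ℤ) ≤ |x l| := by omega
  have h2 : ((n : ℝ) + 1) ≤ |(x l : ℝ)| := by exact_mod_cast h1
  unfold nm
  fin_cases l
  · exact h2.trans (le_max_left _ _)
  · exact h2.trans (le_max_right _ _)

lemma sum_inv_box (n : ℕ) : ∑ u ∈ box 2 n, 1 / (1 + nm u) ≤ 8 * n + 1 := by
  induction n with
  | zero =>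
    have : box 2 0 = {0} := by
      ext x
      rw [mem_box, Finset.mem_singleton]
      constructor
      · intro h
        funext l
        have := h l
        have h2 : |x l| = 0 := le_antisymm (by simpa using this) (abs_nonneg _)
        simpa using h2
      · rintro rfl l
        simp
    rw [this, Finset.sum_singleton, nm_zero]
    norm_num
  | succ n ih =>
    have hsub : box 2 n ⊆ box 2 (n + 1) := box_mono (Nat.le_succ n)
    rw [← Finset.sum_sdiff hsub]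
    have hc : (((box 2 (n + 1)) \ (box 2 n)).card : ℝ) = 8 * (n + 1) := by
      rw [Finset.cast_card_sdiff hsub, card_box, card_box]
      push_cast
      ring
    have h1 : ∑ u ∈ box 2 (n + 1) \ box 2 n, 1 / (1 + nm u) ≤
        ∑ u ∈ box 2 (n + 1) \ box 2 n, 1 / ((n : ℝ) + 1) := by
      refine Finset.sum_le_sum fun u hu => ?_
      have h2 := le_nm (Finset.mem_sdiff.mp hu).2
      have h3 : (0 : ℝ) < (n : ℝ) + 1 := by positivity
      exact one_div_le_one_div_of_le h3 (by linarith)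
    rw [Finset.sum_const, nsmul_eq_mul, hc] at h1
    have h4 : 8 * ((n : ℝ) + 1) * (1 / ((n : ℝ) + 1)) = 8 := by
      have : ((n : ℝ) + 1) ≠ 0 := by positivity
      field_simp
    rw [h4] at h1
    push_cast
    linarith

lemma sum_shift {n : ℕ} {x : Site 2} (hx : x ∈ box 2 n) :
    ∑ z ∈ box 2 n, 1 / (1 + nm (x - z)) ≤ 16 * n + 1 := by
  have h1 : ∑ z ∈ box 2 n, 1 / (1 + nm (x - z)) =
      ∑ u ∈ (box 2 n).image (fun z => x - z), 1 / (1 + nm u) := by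
    rw [Finset.sum_image]
    intro a _ b _ hab
    simpa using hab
  rw [h1]
  have h2 : (box 2 n).image (fun z => x - z) ⊆ box 2 (2 * n) := by
    intro u hu
    rw [Finset.mem_image] at hu
    obtain ⟨z, hz, rfl⟩ := hu
    rw [mem_box] at hx hz ⊢
    intro l
    have a1 := hx l
    have a2 := hz l
    have a3 : |(x - z) l| ≤ |x l| + |z l| := by
      rw [Pi.sub_apply]
      exact abs_sub _ _
    push_cast
    omega
  refine (Finset.sum_le_sum_of_subset_of_nonneg h2 fun u _ _ => ?_).trans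
    ((sum_inv_box (2 * n)).trans (by push_cast; linarith))
  have := nm_nonneg u
  positivity

/-! ### Evenness -/

lemma vec_false (l : Fin 2) : (vec (l, false) : Site 2) = -vec (l, true) := by
  unfold vec
  simp [← Pi.single_neg]

lemma secondDiff_even {φ : Site 2 → ℝ} (h : ∀ x, φ (-x) = φ x) (l : Fin 2) (x : Site 2) :
    secondDiff φ l (-x) = secondDiff φ l x := by
  unfold secondDiff
  rw [vec_false]
  have e1 : φ (-x + vec (l, true)) = φ (x + -vec (l, true)) := by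
    rw [← h]; congr 1; abel
  have e2 : φ (-x + -vec (l, true)) = φ (x + vec (l, true)) := by
    rw [← h]; congr 1; abel
  rw [e1, e2, h]
  ring

lemma Df_even {φ : Site 2 → ℝ} (h : ∀ x, φ (-x) = φ x) (x : Site 2) : Df φ (-x) = Df φ x := by
  unfold Df
  rw [secondDiff_even h, secondDiff_even h]

/-! ### Partial sums -/

lemma abs_Sm_sub_le' (a : ℝ) (p : Site 2 → ℕ → ℝ) (z : Site 2) {i j : ℕ} (h : i ≤ j) :
    |Sm a p z j - Sm a p z i| ≤ Vm a p z j - Vm a p z i := by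
  induction j, h using Nat.le_induction with
  | base => simp
  | succ j _ ih =>
    rw [Sm_succ, Vm_succ]
    have h1 : Sm a p z j + (p z j - a) - Sm a p z i = (Sm a p z j - Sm a p z i) + (p z j - a) := by
      ring
    rw [h1]
    have h2 := abs_add_le (Sm a p z j - Sm a p z i) (p z j - a)
    linarith

lemma Vm_nonneg (a : ℝ) (p : Site 2 → ℕ → ℝ) (z : Site 2) (j : ℕ) : 0 ≤ Vm a p z j := by
  unfold Vm
  exact Finset.sum_nonneg fun _ _ => abs_nonneg _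

section cook

variable {a : ℝ} {p : Site 2 → ℕ → ℝ} {V : Site 2 → ℝ} {Tl : Site 2 → ℕ → ℝ} {Si : Site 2 → ℝ}
  (hc : Cook a p V Tl Si)

include hc

lemma V_nonneg (z : Site 2) : 0 ≤ V z := (Vm_nonneg a p z 0).trans (hc.tv z 0)

lemma abs_Sm_sub_le (z : Site 2) (i j : ℕ) : |Sm a p z j - Sm a p z i| ≤ V z := by
  rcases le_total i j with h | h
  · have := abs_Sm_sub_le' a p z h
    have h1 := Vm_nonneg a p z i
    have h2 := hc.tv z j
    linarith
  · rw [abs_sub_comm]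
    have := abs_Sm_sub_le' a p z h
    have h1 := Vm_nonneg a p z j
    have h2 := hc.tv z i
    linarith

lemma abs_dS_le (s : St) : |dS a p s| ≤ 1 := by
  unfold dS
  have h1 := hc.p0 s.1 (s.2 s.1)
  have h2 := hc.p1 s.1 (s.2 s.1)
  have h3 := hc.a0
  have h4 := hc.a1
  rw [abs_le]
  constructor <;> linarith

lemma aa_nonneg (b k : ℕ) : 0 ≤ aa V b k := by
  unfold aa
  have := Finset.sum_nonneg (s := Bx b (k + 1)) fun z _ => V_nonneg hc z
  positivity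

lemma tt_nonneg (b k s : ℕ) : 0 ≤ tt V b k s := by
  unfold tt
  refine Finset.sum_nonneg fun y _ => ?_
  have h1 := V_nonneg hc y
  have h2 := nm_nonneg y
  positivity

end cook

lemma bb_nonneg (V : Site 2 → ℝ) (b k : ℕ) : 0 ≤ bb V b k := by
  unfold bb
  have := Finset.sum_nonneg (s := Bx b (k + 1)) fun z _ => sq_nonneg (V z)
  positivity

lemma aa_sq_le (V : Site 2 → ℝ) (b k : ℕ) : aa V b k ^ 2 ≤ (4 * b + 1) ^ 2 * bb V b k := by
  have h1 : (∑ z ∈ Bx b (k + 1), V z) ^ 2 ≤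
      ((Bx b (k + 1)).card : ℝ) * ∑ z ∈ Bx b (k + 1), V z ^ 2 := sq_sum_le_card_mul_sum_sq
  have h2 : ((Bx b (k + 1)).card : ℝ) ≤ (4 * b + 1) ^ 2 * 4 ^ k := by
    unfold Bx
    rw [card_box]
    have h3 : (4 : ℝ) ^ k = (2 ^ k) ^ 2 := by
      rw [← pow_mul, mul_comm, pow_mul]; norm_num
    rw [h3, ← mul_pow]
    have h4 : (1 : ℝ) ≤ 2 ^ k := one_le_pow₀ (by norm_num)
    have h5 : (0 : ℝ) ≤ b := by positivity
    refine pow_le_pow_left₀ (by positivity) ?_ 2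
    push_cast
    rw [pow_succ]
    nlinarith
  have h6 : 0 ≤ ∑ z ∈ Bx b (k + 1), V z ^ 2 := Finset.sum_nonneg fun z _ => sq_nonneg _
  have h7 : (0 : ℝ) < 4 ^ k := by positivity
  unfold aa bb
  rw [div_pow, div_le_iff₀ (by positivity)]
  have h8 : (4 * (b : ℝ) + 1) ^ 2 * ((∑ z ∈ Bx b (k + 1), V z ^ 2) / 4 ^ k) * (4 ^ k) ^ 2 =
      ((4 * b + 1) ^ 2 * 4 ^ k) * ∑ z ∈ Bx b (k + 1), V z ^ 2 := by
    field_simp
  rw [h8]
  exact h1.trans (mul_le_mul_of_nonneg_right h2 h6)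

/-! ### The symmetric form -/

lemma sum_delta {B : Finset (Site 2)} {x : Site 2} (hx : x ∈ B) (f g : Site 2 → ℝ) (d : ℝ) :
    ∑ y ∈ B, g y * (f y + if y = x then d else 0) = ∑ y ∈ B, g y * f y + g x * d := by
  simp only [mul_add, Finset.sum_add_distrib, mul_ite, mul_zero]
  rw [Finset.sum_ite_eq' B x, if_pos hx]

lemma quad_in {B : Finset (Site 2)} {x : Site 2} (hx : x ∈ B) (H : Site 2 → Site 2 → ℝ)
    (hH : ∀ z y, H z y = H y z) (f : Site 2 → ℝ) (d : ℝ) :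
    ∑ z ∈ B, ∑ y ∈ B, H z y * (f z + if z = x then d else 0) * (f y + if y = x then d else 0) =
      ∑ z ∈ B, ∑ y ∈ B, H z y * f z * f y + 2 * (d * ∑ z ∈ B, H z x * f z) + H x x * d ^ 2 := by
  have h1 : ∀ z ∈ B, ∑ y ∈ B, H z y * (f z + if z = x then d else 0) *
      (f y + if y = x then d else 0) =
      (∑ y ∈ B, H z y * f y + H z x * d) * (f z + if z = x then d else 0) := by
    intro z _
    rw [sum_delta hx f (fun y => H z y * (f z + if z = x then d else 0)) d, add_mul,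
      Finset.sum_mul]
    congr 1
    · refine Finset.sum_congr rfl fun y _ => ?_
      ring
    · ring
  rw [Finset.sum_congr rfl h1,
    sum_delta hx f (fun z => ∑ y ∈ B, H z y * f y + H z x * d) d]
  have h2 : ∑ z ∈ B, (∑ y ∈ B, H z y * f y + H z x * d) * f z =
      ∑ z ∈ B, ∑ y ∈ B, H z y * f z * f y + d * ∑ z ∈ B, H z x * f z := by
    rw [Finset.mul_sum, ← Finset.sum_add_distrib]
    refine Finset.sum_congr rfl fun z _ => ?_
    rw [add_mul, Finset.sum_mul]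
    congr 1
    · refine Finset.sum_congr rfl fun y _ => ?_
      ring
    · ring
  have h3 : ∑ y ∈ B, H x y * f y = ∑ y ∈ B, H y x * f y :=
    Finset.sum_congr rfl fun y _ => by rw [hH x y]
  rw [h2, h3]
  ring

lemma quad_out {B : Finset (Site 2)} {x : Site 2} (hx : x ∉ B) (H : Site 2 → Site 2 → ℝ)
    (f : Site 2 → ℝ) (d : ℝ) :
    ∑ z ∈ B, ∑ y ∈ B, H z y * (f z + if z = x then d else 0) * (f y + if y = x then d else 0) =
      ∑ z ∈ B, ∑ y ∈ B, H z y * f z * f y := by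
  refine Finset.sum_congr rfl fun z hz => Finset.sum_congr rfl fun y hy => ?_
  have h1 : z ≠ x := by
    rintro rfl
    exact hx hz
  have h2 : y ≠ x := by
    rintro rfl
    exact hx hy
  rw [if_neg h1, if_neg h2, add_zero, add_zero]

/-- The symmetrised kernel. -/
noncomputable def Hm (φ : Site 2 → ℝ) (Φ : ℕ → Site 2 → ℝ) (k : ℕ) (z y : Site 2) : ℝ :=
  (hk Φ k z + hk Φ k y) / 2 * Df φ (y - z)

lemma Hm_symm {φ : Site 2 → ℝ} (h : ∀ x, φ (-x) = φ x) (Φ : ℕ → Site 2 → ℝ) (k : ℕ)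
    (z y : Site 2) : Hm φ Φ k z y = Hm φ Φ k y z := by
  unfold Hm
  have : z - y = -(y - z) := by abel
  rw [this, Df_even h]
  ring

/-- The increments of the partial sums since the local times `L0`. -/
noncomputable def D0 (a : ℝ) (p : Site 2 → ℕ → ℝ) (L0 : Site 2 → ℕ) (s : St) (z : Site 2) : ℝ :=
  Sm a p z (s.2 z) - Sm a p z (L0 z)

lemma DS_eq (a : ℝ) (p : Site 2 → ℕ → ℝ) (L0 : Site 2 → ℕ) (s : St) (z : Site 2) :
    DS a p L0 s z = D0 a p L0 s z + if z = s.1 then dS a p s else 0 := by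
  unfold DS D0 dS
  by_cases h : z = s.1
  · subst h
    rw [if_pos rfl, inc_self, Sm_succ]
    ring
  · rw [if_neg h, inc_of_ne s h, add_zero]

/-- The quadratic functional of the state. -/
noncomputable def QQ (a : ℝ) (p : Site 2 → ℕ → ℝ) (φ : Site 2 → ℝ) (Φ : ℕ → Site 2 → ℝ)
    (k : ℕ) (B : Finset (Site 2)) (L0 : Site 2 → ℕ) (s : St) : ℝ :=
  1 / 2 * ∑ z ∈ B, ∑ y ∈ B, Hm φ Φ k z y * D0 a p L0 s z * D0 a p L0 s y

/-- The symmetric part of the reward. -/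
noncomputable def G3 (a : ℝ) (p : Site 2 → ℕ → ℝ) (φ : Site 2 → ℝ) (Φ : ℕ → Site 2 → ℝ)
    (k : ℕ) (B : Finset (Site 2)) (L0 : Site 2 → ℕ) (s : St) : ℝ :=
  if s.1 ∈ B then dS a p s * ∑ z ∈ B, Hm φ Φ k z s.1 * DS a p L0 s z else 0

/-- The diagonal. -/
noncomputable def G5 (a : ℝ) (p : Site 2 → ℕ → ℝ) (φ : Site 2 → ℝ) (Φ : ℕ → Site 2 → ℝ)
    (k : ℕ) (B : Finset (Site 2)) (s : St) : ℝ :=
  if s.1 ∈ B then 1 / 2 * (hk Φ k s.1 * Df φ 0) * dS a p s ^ 2 else 0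

/-- The asymmetric part of the near reward. -/
noncomputable def G4 (a : ℝ) (p : Site 2 → ℕ → ℝ) (φ : Site 2 → ℝ) (Φ : ℕ → Site 2 → ℝ)
    (k : ℕ) (B : Finset (Site 2)) (L0 : Site 2 → ℕ) (s : St) : ℝ :=
  if s.1 ∈ B then dS a p s * ∑ z ∈ B, (hk Φ k z - hk Φ k s.1) / 2 * Df φ (s.1 - z) *
    DS a p L0 s z else 0

/-- The reward of the packet. -/
noncomputable def GG (a : ℝ) (p : Site 2 → ℕ → ℝ) (φ : Site 2 → ℝ) (Φ : ℕ → Site 2 → ℝ)
    (b k : ℕ) (L0 : Site 2 → ℕ) (s : St) : ℝ :=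
  dS a p s * ∑ z ∈ Bx b k, hk Φ k z * DS a p L0 s z * (Df φ (s.1 - z) - Df (Φ k) s.1)

/-- The far and the smooth part. -/
noncomputable def G1 (a : ℝ) (p : Site 2 → ℕ → ℝ) (φ : Site 2 → ℝ) (Φ : ℕ → Site 2 → ℝ)
    (b k : ℕ) (L0 : Site 2 → ℕ) (s : St) : ℝ :=
  if s.1 ∈ Bx b (k + 1) then
    -(dS a p s * ∑ z ∈ Bx b k, hk Φ k z * DS a p L0 s z * Df (Φ k) s.1)
  else GG a p φ Φ b k L0 s

lemma stp_QQ (a : ℝ) (p : Site 2 → ℕ → ℝ) {φ : Site 2 → ℝ} (h : ∀ x, φ (-x) = φ x)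
    (Φ : ℕ → Site 2 → ℝ) (k : ℕ) (B : Finset (Site 2)) (L0 : Site 2 → ℕ) (s : St) :
    stp p (QQ a p φ Φ k B L0) s = QQ a p φ Φ k B L0 s +
      (G3 a p φ Φ k B L0 s - G5 a p φ Φ k B s) := by
  have h1 : stp p (QQ a p φ Φ k B L0) s =
      1 / 2 * ∑ z ∈ B, ∑ y ∈ B, Hm φ Φ k z y * DS a p L0 s z * DS a p L0 s y :=
    stp_of_eq p fun e => rfl
  rw [h1]
  simp only [DS_eq]
  by_cases hx : s.1 ∈ B
  · rw [quad_in hx (Hm φ Φ k) (Hm_symm h Φ k) (D0 a p L0 s) (dS a p s)]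
    unfold G3 G5 QQ
    rw [if_pos hx, if_pos hx]
    simp only [DS_eq]
    rw [sum_delta hx (D0 a p L0 s) (fun z => Hm φ Φ k z s.1) (dS a p s)]
    have h2 : Hm φ Φ k s.1 s.1 = hk Φ k s.1 * Df φ 0 := by
      unfold Hm
      rw [sub_self]
      ring
    rw [h2]
    ring
  · rw [quad_out hx (Hm φ Φ k) (D0 a p L0 s) (dS a p s)]
    unfold G3 G5 QQ
    rw [if_neg hx, if_neg hx]
    ring

section bounds

variable {a : ℝ} {p : Site 2 → ℕ → ℝ} {V : Site 2 → ℝ} {Tl : Site 2 → ℕ → ℝ} {Si : Site 2 → ℝ}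
  {φ : Site 2 → ℝ} {Φ : ℕ → Site 2 → ℝ} {κ C : ℝ} {b k1 : ℕ}

lemma GG_eq (hs : Scl a φ Φ κ C b k1) {k : ℕ} (hk1 : k1 ≤ k) (L0 : Site 2 → ℕ) (s : St) :
    GG a p φ Φ b k L0 s = G1 a p φ Φ b k L0 s + G4 a p φ Φ k (Bx b (k + 1)) L0 s +
      (G3 a p φ Φ k (Bx b (k + 1)) L0 s - G5 a p φ Φ k (Bx b (k + 1)) s) +
      G5 a p φ Φ k (Bx b (k + 1)) s := by
  by_cases hx : s.1 ∈ Bx b (k + 1)
  · unfold G1 G4 G3 GG
    rw [if_pos hx, if_pos hx, if_pos hx]
    have h1 : ∑ z ∈ Bx b k, hk Φ k z * DS a p L0 s z * (Df φ (s.1 - z) - Df (Φ k) s.1) =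
        ∑ z ∈ Bx b k, hk Φ k z * DS a p L0 s z * Df φ (s.1 - z) -
        ∑ z ∈ Bx b k, hk Φ k z * DS a p L0 s z * Df (Φ k) s.1 := by
      rw [← Finset.sum_sub_distrib]
      exact Finset.sum_congr rfl fun z _ => by ring
    have h2 : ∑ z ∈ Bx b k, hk Φ k z * DS a p L0 s z * Df φ (s.1 - z) =
        ∑ z ∈ Bx b (k + 1), hk Φ k z * DS a p L0 s z * Df φ (s.1 - z) := by
      refine Finset.sum_subset (Bx_mono b (Nat.le_succ k)) fun z _ hz => ?_
      rw [hs.hS k hk1 z hz]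
      ring
    have h3 : ∑ z ∈ Bx b (k + 1), hk Φ k z * DS a p L0 s z * Df φ (s.1 - z) =
        ∑ z ∈ Bx b (k + 1), (hk Φ k z - hk Φ k s.1) / 2 * Df φ (s.1 - z) * DS a p L0 s z +
        ∑ z ∈ Bx b (k + 1), Hm φ Φ k z s.1 * DS a p L0 s z := by
      rw [← Finset.sum_add_distrib]
      refine Finset.sum_congr rfl fun z _ => ?_
      unfold Hm
      ring
    rw [h1, h2, h3]
    ring
  · unfold G1 G4 G3 G5
    rw [if_neg hx, if_neg hx, if_neg hx, if_neg hx]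
    ring

lemma abs_DS_le (hc : Cook a p V Tl Si) (L0 : Site 2 → ℕ) (s : St) (z : Site 2) :
    |DS a p L0 s z| ≤ V z := abs_Sm_sub_le hc z _ _

lemma abs_D0_le (hc : Cook a p V Tl Si) (L0 : Site 2 → ℕ) (s : St) (z : Site 2) :
    |D0 a p L0 s z| ≤ V z := abs_Sm_sub_le hc z _ _

lemma Rw_bd (hLTM : LTM_stmt) (hc : Cook a p V Tl Si) (Λ : Finset (Site 2)) (N : ℕ) (s0 : St)
    (w : Site 2 → ℝ) (g : St → ℝ) (h : ∀ s, s.1 ∈ Λ → |g s| ≤ |w s.1| * |dS a p s|) :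
    |Rw p Λ N g s0| ≤ ∑ z ∈ Λ, |w z| * V z :=
  (Rw_abs hc.p0 hc.p1 Λ N g s0).trans ((Rw_mono hc.p0 hc.p1 Λ N h s0).trans
    ((hLTM a p V Tl Si hc Λ N s0).2.1 w))

lemma form_bound (hs : Scl a φ Φ κ C b k1) (B : Finset (Site 2))
    (f g : Site 2 → ℝ) (α β : ℝ) (hα : 0 ≤ α) (hβ : 0 ≤ β) (hf : ∀ z, |f z| ≤ α * V z)
    (hg : ∀ z, |g z| ≤ β * V z) :
    |∑ z ∈ B, ∑ y ∈ B, f z * Df φ (y - z) * g y| ≤ C * α * β * ∑ z ∈ B, V z ^ 2 := by
  have hS : 0 ≤ ∑ z ∈ B, V z ^ 2 := Finset.sum_nonneg fun z _ => sq_nonneg _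
  have key : ∀ (f : Site 2 → ℝ) (α : ℝ), 0 ≤ α → (∀ z, |f z| ≤ α * V z) →
      Real.sqrt (∑ z ∈ B, f z ^ 2) ≤ α * Real.sqrt (∑ z ∈ B, V z ^ 2) := by
    intro f α hα hf
    rw [Real.sqrt_le_left (by positivity), mul_pow, Real.sq_sqrt hS, Finset.mul_sum]
    refine Finset.sum_le_sum fun z _ => ?_
    rw [← mul_pow, ← sq_abs]
    exact pow_le_pow_left₀ (abs_nonneg _) (hf z) 2
  have hC : 0 ≤ C := le_trans (by norm_num) hs.cone
  refine (hs.form B f g).trans ?_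
  calc C * Real.sqrt (∑ z ∈ B, f z ^ 2) * Real.sqrt (∑ y ∈ B, g y ^ 2)
      ≤ C * (α * Real.sqrt (∑ z ∈ B, V z ^ 2)) * (β * Real.sqrt (∑ z ∈ B, V z ^ 2)) := by
        gcongr
        · exact key f α hα hf
        · exact key g β hβ hg
    _ = C * α * β * (Real.sqrt (∑ z ∈ B, V z ^ 2)) ^ 2 := by ring
    _ = C * α * β * ∑ z ∈ B, V z ^ 2 := by rw [Real.sq_sqrt hS]

lemma abs_QQ_le (hc : Cook a p V Tl Si) (hs : Scl a φ Φ κ C b k1) {k : ℕ} (hk1 : k1 ≤ k)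
    (L0 : Site 2 → ℕ) (s : St) :
    |QQ a p φ Φ k (Bx b (k + 1)) L0 s| ≤ 1 / 2 * (C ^ 2 * bb V b k) := by
  have hC : 0 ≤ C := le_trans (by norm_num) hs.cone
  set B := Bx b (k + 1) with hB
  have e1 : QQ a p φ Φ k B L0 s =
      1 / 4 * ∑ z ∈ B, ∑ y ∈ B, (hk Φ k z * D0 a p L0 s z) * Df φ (y - z) * D0 a p L0 s y +
      1 / 4 * ∑ z ∈ B, ∑ y ∈ B, D0 a p L0 s z * Df φ (y - z) * (hk Φ k y * D0 a p L0 s y) := by
    unfold QQ
    rw [← mul_add, ← Finset.sum_add_distrib]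
    have : ∀ z ∈ B, (∑ y ∈ B, (hk Φ k z * D0 a p L0 s z) * Df φ (y - z) * D0 a p L0 s y +
        ∑ y ∈ B, D0 a p L0 s z * Df φ (y - z) * (hk Φ k y * D0 a p L0 s y)) =
        2 * ∑ y ∈ B, Hm φ Φ k z y * D0 a p L0 s z * D0 a p L0 s y := by
      intro z _
      rw [← Finset.sum_add_distrib, Finset.mul_sum]
      refine Finset.sum_congr rfl fun y _ => ?_
      unfold Hm
      ring
    rw [Finset.sum_congr rfl this, ← Finset.mul_sum]
    ring
  have h4 : (0 : ℝ) < 4 ^ k := by positivity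
  have hh : ∀ z, |hk Φ k z * D0 a p L0 s z| ≤ C / 4 ^ k * V z := by
    intro z
    rw [abs_mul]
    exact mul_le_mul (hs.h1 k hk1 z) (abs_D0_le hc L0 s z) (abs_nonneg _) (by positivity)
  have hd : ∀ z, |D0 a p L0 s z| ≤ 1 * V z := by
    intro z
    rw [one_mul]
    exact abs_D0_le hc L0 s z
  have b1 := form_bound hs B (fun z => hk Φ k z * D0 a p L0 s z) (D0 a p L0 s) (C / 4 ^ k) 1
    (by positivity) (by norm_num) hh hd
  have b2 := form_bound hs B (D0 a p L0 s) (fun z => hk Φ k z * D0 a p L0 s z) 1 (C / 4 ^ k)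
    (by norm_num) (by positivity) hd hh
  have e2 : C * (C / 4 ^ k) * 1 * ∑ z ∈ B, V z ^ 2 = C ^ 2 * bb V b k := by
    unfold bb
    rw [← hB]
    ring
  have e3 : C * 1 * (C / 4 ^ k) * ∑ z ∈ B, V z ^ 2 = C ^ 2 * bb V b k := by
    unfold bb
    rw [← hB]
    ring
  rw [e2] at b1
  rw [e3] at b2
  rw [e1]
  refine (abs_add_le _ _).trans ?_
  rw [abs_mul, abs_mul, abs_of_pos (by norm_num : (0 : ℝ) < 1 / 4)]
  linarith

lemma S1_le (hc : Cook a p V Tl Si) (hs : Scl a φ Φ κ C b k1) {k : ℕ} (hk1 : k1 ≤ k) :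
    ∑ z ∈ Bx b k, |hk Φ k z| * V z ≤ C * aa V b k := by
  have hC : 0 ≤ C := le_trans (by norm_num) hs.cone
  have h1 : ∑ z ∈ Bx b k, |hk Φ k z| * V z ≤ ∑ z ∈ Bx b k, C / 4 ^ k * V z :=
    Finset.sum_le_sum fun z _ => mul_le_mul_of_nonneg_right (hs.h1 k hk1 z) (V_nonneg hc z)
  have h2 : ∑ z ∈ Bx b k, C / 4 ^ k * V z ≤ ∑ z ∈ Bx b (k + 1), C / 4 ^ k * V z :=
    Finset.sum_le_sum_of_subset_of_nonneg (Bx_mono b (Nat.le_succ k)) fun z _ _ =>
      mul_nonneg (by positivity) (V_nonneg hc z)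
  refine (h1.trans h2).trans (le_of_eq ?_)
  rw [← Finset.mul_sum]
  unfold aa
  ring

lemma inner_bd (hc : Cook a p V Tl Si) (k : ℕ) (L0 : Site 2 → ℕ) (s : St)
    (g : Site 2 → ℝ) (M : ℝ) (hg : ∀ z ∈ Bx b k, |g z| ≤ M) :
    |∑ z ∈ Bx b k, hk Φ k z * DS a p L0 s z * g z| ≤ (∑ z ∈ Bx b k, |hk Φ k z| * V z) * M := by
  refine (Finset.abs_sum_le_sum_abs _ _).trans ?_
  rw [Finset.sum_mul]
  refine Finset.sum_le_sum fun z hz => ?_
  rw [abs_mul, abs_mul]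
  refine mul_le_mul ?_ (hg z hz) (abs_nonneg _) (mul_nonneg (abs_nonneg _) (V_nonneg hc z))
  exact mul_le_mul_of_nonneg_left (abs_DS_le hc L0 s z) (abs_nonneg _)

lemma G1_bd (hLTM : LTM_stmt) (hc : Cook a p V Tl Si) (hs : Scl a φ Φ κ C b k1) {k s : ℕ}
    (hk1 : k1 ≤ k) (hks : k ≤ s) (N : ℕ) (L0 : Site 2 → ℕ) (s0 : St) :
    |Rw p (Bx b (s + 1)) N (G1 a p φ Φ b k L0) s0| ≤
      C ^ 2 * (aa V b k ^ 2 + aa V b k * tt V b k s) := by
  have hC : 0 ≤ C := le_trans (by norm_num) hs.cone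
  set S1 := ∑ z ∈ Bx b k, |hk Φ k z| * V z with hS1
  have hS1' : 0 ≤ S1 := Finset.sum_nonneg fun z _ => mul_nonneg (abs_nonneg _) (V_nonneg hc z)
  have hS1le : S1 ≤ C * aa V b k := S1_le hc hs hk1
  set w : Site 2 → ℝ := fun x => if x ∈ Bx b (k + 1) then S1 * (C / 4 ^ k)
    else S1 * (C * (2 ^ k / (1 + nm x) ^ 3)) with hw
  have hw0 : ∀ x, 0 ≤ w x := by
    intro x
    have := nm_nonneg x
    simp only [hw]
    split_ifs
    · positivity
    · positivity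
  have h1 : |Rw p (Bx b (s + 1)) N (G1 a p φ Φ b k L0) s0| ≤ ∑ z ∈ Bx b (s + 1), |w z| * V z := by
    refine Rw_bd hLTM hc _ N s0 w _ fun σ _ => ?_
    rw [abs_of_nonneg (hw0 _)]
    unfold G1
    by_cases hx : σ.1 ∈ Bx b (k + 1)
    · rw [if_pos hx, abs_neg, abs_mul, mul_comm]
      refine mul_le_mul_of_nonneg_right ?_ (abs_nonneg _)
      simp only [hw]
      rw [if_pos hx]
      exact inner_bd hc k L0 σ (fun _ => Df (Φ k) σ.1) (C / 4 ^ k)
        fun z _ => hs.dphi1 k hk1 _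
    · rw [if_neg hx]
      unfold GG
      rw [abs_mul, mul_comm]
      refine mul_le_mul_of_nonneg_right ?_ (abs_nonneg _)
      simp only [hw]
      rw [if_neg hx]
      have := nm_nonneg σ.1
      refine inner_bd hc k L0 σ (fun z => Df φ (σ.1 - z) - Df (Φ k) σ.1)
        (C * (2 ^ k / (1 + nm σ.1) ^ 3)) fun z hz => ?_
      rw [← mul_div_assoc]
      exact hs.far k hk1 z hz _ hx
  refine h1.trans ?_
  have hsub : Bx b (k + 1) ⊆ Bx b (s + 1) := Bx_mono b (by omega)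
  rw [← Finset.sum_sdiff hsub]
  have e1 : ∑ z ∈ Bx b (s + 1) \ Bx b (k + 1), |w z| * V z = S1 * C * tt V b k s := by
    unfold tt
    rw [Finset.mul_sum]
    refine Finset.sum_congr rfl fun z hz => ?_
    rw [abs_of_nonneg (hw0 _)]
    simp only [hw]
    rw [if_neg (Finset.mem_sdiff.mp hz).2]
    ring
  have e2 : ∑ z ∈ Bx b (k + 1), |w z| * V z = S1 * C * aa V b k := by
    unfold aa
    rw [← mul_div_assoc, Finset.mul_sum, Finset.sum_div]
    refine Finset.sum_congr rfl fun z hz => ?_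
    rw [abs_of_nonneg (hw0 _)]
    simp only [hw]
    rw [if_pos hz]
    ring
  rw [e1, e2]
  have ha := aa_nonneg hc b k
  have ht := tt_nonneg hc b k s
  have h2 : S1 * C * tt V b k s ≤ C * aa V b k * C * tt V b k s := by gcongr
  have h3 : S1 * C * aa V b k ≤ C * aa V b k * C * aa V b k := by gcongr
  nlinarith

lemma G5_bd (hLTM : LTM_stmt) (hc : Cook a p V Tl Si) (hs : Scl a φ Φ κ C b k1) {k s : ℕ}
    (hk1 : k1 ≤ k) (hks : k ≤ s) (N : ℕ) (s0 : St) :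
    |Rw p (Bx b (s + 1)) N (G5 a p φ Φ k (Bx b (k + 1))) s0| ≤ C ^ 2 * aa V b k := by
  have hC : 0 ≤ C := le_trans (by norm_num) hs.cone
  set w : Site 2 → ℝ := fun x => if x ∈ Bx b (k + 1) then C ^ 2 / 4 ^ k else 0 with hw
  have hw0 : ∀ x, 0 ≤ w x := by
    intro x
    simp only [hw]
    split_ifs
    · positivity
    · exact le_rfl
  have h0 : |Df φ 0| ≤ C := by
    have := hs.hbd 0
    rw [nm_zero] at this
    simpa using this
  have h1 : |Rw p (Bx b (s + 1)) N (G5 a p φ Φ k (Bx b (k + 1))) s0| ≤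
      ∑ z ∈ Bx b (s + 1), |w z| * V z := by
    refine Rw_bd hLTM hc _ N s0 w _ fun σ _ => ?_
    rw [abs_of_nonneg (hw0 _)]
    unfold G5
    by_cases hx : σ.1 ∈ Bx b (k + 1)
    · rw [if_pos hx]
      simp only [hw]
      rw [if_pos hx, abs_mul, abs_mul, abs_mul, abs_pow, abs_of_pos (by norm_num : (0 : ℝ) < 1 / 2)]
      have h2 := hs.h1 k hk1 σ.1
      have h3 := abs_dS_le hc σ
      have h4 : |hk Φ k σ.1| * |Df φ 0| ≤ C / 4 ^ k * C :=
        mul_le_mul h2 h0 (abs_nonneg _) (by positivity)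
      have h5 : |dS a p σ| ^ 2 ≤ |dS a p σ| := by
        have := abs_nonneg (dS a p σ)
        nlinarith
      have h6 : 0 ≤ |hk Φ k σ.1| * |Df φ 0| := by positivity
      have h7 : 1 / 2 * (|hk Φ k σ.1| * |Df φ 0|) ≤ C ^ 2 / 4 ^ k := by
        have : C / 4 ^ k * C = C ^ 2 / 4 ^ k := by ring
        linarith
      exact mul_le_mul h7 h5 (by positivity) (by positivity)
    · rw [if_neg hx, abs_zero]
      exact mul_nonneg (hw0 _) (abs_nonneg _)
  refine h1.trans (le_of_eq ?_)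
  have hsub : Bx b (k + 1) ⊆ Bx b (s + 1) := Bx_mono b (by omega)
  rw [← Finset.sum_subset hsub]
  · unfold aa
    rw [← mul_div_assoc, Finset.mul_sum, Finset.sum_div]
    refine Finset.sum_congr rfl fun z hz => ?_
    rw [abs_of_nonneg (hw0 _)]
    simp only [hw]
    rw [if_pos hz]
    ring
  · intro z _ hz
    simp only [hw]
    rw [if_neg hz]
    simp

lemma G4_bd (hLTM : LTM_stmt) (hc : Cook a p V Tl Si) (hs : Scl a φ Φ κ C b k1) {k s : ℕ}
    (hk1 : k1 ≤ k) (hks : k ≤ s) (N : ℕ) (L0 : Site 2 → ℕ) (s0 : St) :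
    |Rw p (Bx b (s + 1)) N (G4 a p φ Φ k (Bx b (k + 1)) L0) s0| ≤
      17 * b * C ^ 2 * bb V b k := by
  have hC : 0 ≤ C := le_trans (by norm_num) hs.cone
  set B := Bx b (k + 1) with hB
  set w : Site 2 → ℝ := fun x => if x ∈ B then
    ∑ z ∈ B, C ^ 2 / 8 ^ k / 2 * (1 / (1 + nm (x - z))) * V z else 0 with hw
  have hw0 : ∀ x, 0 ≤ w x := by
    intro x
    simp only [hw]
    split_ifs
    · refine Finset.sum_nonneg fun z _ => ?_
      have h1 := nm_nonneg (x - z)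
      have h2 := V_nonneg hc z
      positivity
    · exact le_rfl
  have h1 : |Rw p (Bx b (s + 1)) N (G4 a p φ Φ k B L0) s0| ≤
      ∑ z ∈ Bx b (s + 1), |w z| * V z := by
    refine Rw_bd hLTM hc _ N s0 w _ fun σ _ => ?_
    rw [abs_of_nonneg (hw0 _)]
    unfold G4
    by_cases hx : σ.1 ∈ B
    · rw [if_pos hx, abs_mul, mul_comm]
      refine mul_le_mul_of_nonneg_right ?_ (abs_nonneg _)
      simp only [hw]
      rw [if_pos hx]
      refine (Finset.abs_sum_le_sum_abs _ _).trans (Finset.sum_le_sum fun z _ => ?_)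
      have hn := nm_nonneg (σ.1 - z)
      have hV := V_nonneg hc z
      rw [abs_mul, abs_mul, abs_div, abs_of_pos (by norm_num : (0 : ℝ) < 2)]
      have q1 : |hk Φ k z - hk Φ k σ.1| ≤ C / 8 ^ k * nm (σ.1 - z) := by
        have := hs.hL k hk1 z σ.1
        have e : z - σ.1 = -(σ.1 - z) := by abel
        rwa [e, nm_neg] at this
      have q2 : |Df φ (σ.1 - z)| ≤ C / (1 + nm (σ.1 - z)) ^ 2 := hs.hbd _
      have q3 := abs_DS_le hc L0 σ z
      refine mul_le_mul ?_ q3 (abs_nonneg _) (by positivity)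
      have q4 : |hk Φ k z - hk Φ k σ.1| / 2 * |Df φ (σ.1 - z)| ≤
          (C / 8 ^ k * nm (σ.1 - z)) / 2 * (C / (1 + nm (σ.1 - z)) ^ 2) := by
        gcongr
      refine q4.trans ?_
      have q5 : nm (σ.1 - z) / (1 + nm (σ.1 - z)) ^ 2 ≤ 1 / (1 + nm (σ.1 - z)) := by
        rw [div_le_div_iff₀ (by positivity) (by positivity)]
        nlinarith
      have q6 : (C / 8 ^ k * nm (σ.1 - z)) / 2 * (C / (1 + nm (σ.1 - z)) ^ 2) =
          C ^ 2 / 8 ^ k / 2 * (nm (σ.1 - z) / (1 + nm (σ.1 - z)) ^ 2) := by ring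
      rw [q6]
      exact mul_le_mul_of_nonneg_left q5 (by positivity)
    · rw [if_neg hx, abs_zero]
      exact mul_nonneg (hw0 _) (abs_nonneg _)
  refine h1.trans ?_
  have hsub : B ⊆ Bx b (s + 1) := Bx_mono b (by omega)
  rw [← Finset.sum_subset hsub (fun z _ hz => by simp only [hw]; rw [if_neg hz]; simp)]
  set c := C ^ 2 / 8 ^ k / 2 with hcdef
  have hc0 : 0 ≤ c := by positivity
  have h2 : ∑ x ∈ B, |w x| * V x ≤
      ∑ x ∈ B, ∑ z ∈ B, c / 2 * (1 / (1 + nm (x - z)) * (V x ^ 2 + V z ^ 2)) := by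
    refine Finset.sum_le_sum fun x hx => ?_
    rw [abs_of_nonneg (hw0 _)]
    simp only [hw]
    rw [if_pos hx, Finset.sum_mul]
    refine Finset.sum_le_sum fun z _ => ?_
    have hn := nm_nonneg (x - z)
    have e : c * (1 / (1 + nm (x - z))) * V z * V x =
        c / 2 * (1 / (1 + nm (x - z)) * (2 * V x * V z)) := by ring
    rw [e]
    have : 2 * V x * V z ≤ V x ^ 2 + V z ^ 2 := two_mul_le_add_sq _ _
    gcongr
  have h3 : ∑ x ∈ B, ∑ z ∈ B, c / 2 * (1 / (1 + nm (x - z)) * (V x ^ 2 + V z ^ 2)) =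
      c * ∑ x ∈ B, V x ^ 2 * ∑ z ∈ B, 1 / (1 + nm (x - z)) := by
    have e1 : ∑ x ∈ B, ∑ z ∈ B, c / 2 * (1 / (1 + nm (x - z)) * (V x ^ 2 + V z ^ 2)) =
        c / 2 * ∑ x ∈ B, ∑ z ∈ B, V x ^ 2 * (1 / (1 + nm (x - z))) +
        c / 2 * ∑ x ∈ B, ∑ z ∈ B, V z ^ 2 * (1 / (1 + nm (x - z))) := by
      rw [← mul_add, ← Finset.sum_add_distrib, Finset.mul_sum]
      refine Finset.sum_congr rfl fun x _ => ?_
      rw [← Finset.sum_add_distrib, Finset.mul_sum]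
      exact Finset.sum_congr rfl fun z _ => by ring
    have e2 : ∑ x ∈ B, ∑ z ∈ B, V z ^ 2 * (1 / (1 + nm (x - z))) =
        ∑ x ∈ B, ∑ z ∈ B, V x ^ 2 * (1 / (1 + nm (x - z))) := by
      rw [Finset.sum_comm]
      refine Finset.sum_congr rfl fun x _ => Finset.sum_congr rfl fun z _ => ?_
      have e : z - x = -(x - z) := by abel
      rw [e, nm_neg]
    rw [e1, e2]
    simp only [← Finset.mul_sum]
    ring
  have h4 : ∑ x ∈ B, V x ^ 2 * ∑ z ∈ B, 1 / (1 + nm (x - z)) ≤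
      ∑ x ∈ B, V x ^ 2 * (33 * b * 2 ^ k) := by
    refine Finset.sum_le_sum fun x hx => mul_le_mul_of_nonneg_left ?_ (sq_nonneg _)
    rw [hB] at hx ⊢
    unfold Bx at hx ⊢
    refine (sum_shift hx).trans ?_
    have hb : (1 : ℝ) ≤ b := by exact_mod_cast hs.bone
    have h2k : (1 : ℝ) ≤ 2 ^ k := one_le_pow₀ (by norm_num)
    push_cast
    rw [pow_succ]
    nlinarith
  rw [← Finset.sum_mul] at h4
  have h5 : c * ((∑ x ∈ B, V x ^ 2) * (33 * b * 2 ^ k)) = 33 / 2 * b * C ^ 2 * bb V b k := by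
    unfold bb
    rw [← hB, hcdef]
    have e8 : (8 : ℝ) ^ k = 2 ^ k * 4 ^ k := by
      rw [← mul_pow]; norm_num
    rw [e8]
    have : (2 : ℝ) ^ k ≠ 0 := by positivity
    field_simp
  have h6 := mul_le_mul_of_nonneg_left h4 hc0
  rw [h5] at h6
  rw [h3] at h2
  refine (h2.trans h6).trans ?_
  have hbb := bb_nonneg V b k
  have : 33 / 2 * (b : ℝ) * C ^ 2 * bb V b k = 33 / 2 * (b * C ^ 2 * bb V b k) := by ring
  rw [this]
  have h7 : 0 ≤ (b : ℝ) * C ^ 2 * bb V b k := by positivity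
  linarith

end bounds

theorem NEA (hLTM : LTM_stmt) : NEA_stmt := by
  intro C b
  refine ⟨C ^ 2 * (3 * (4 * b + 1) ^ 2 + 17 * b + 1), by positivity, ?_⟩
  intro a p V Tl Si φ Φ κ k1 hc hs k s hk1 hks N s0 _
  have hC : 0 ≤ C := le_trans (by norm_num) hs.cone
  set Λ := Bx b (s + 1) with hΛ
  set B := Bx b (k + 1) with hB
  have e1 : Rw p Λ N (fun s => dS a p s * ∑ z ∈ Bx b k, hk Φ k z * DS a p s0.2 s z *
        (Df φ (s.1 - z) - Df (Φ k) s.1)) s0 =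
      Rw p Λ N (G1 a p φ Φ b k s0.2) s0 + Rw p Λ N (G4 a p φ Φ k B s0.2) s0 +
      Rw p Λ N (fun s => G3 a p φ Φ k B s0.2 s - G5 a p φ Φ k B s) s0 +
      Rw p Λ N (G5 a p φ Φ k B) s0 := by
    rw [← Rw_add, ← Rw_add, ← Rw_add]
    exact Rw_congr p Λ N (fun σ _ => GG_eq hs hk1 s0.2 σ) s0
  have e2 := tele p Λ N (F := QQ a p φ Φ k B s0.2)
    (g := fun s => G3 a p φ Φ k B s0.2 s - G5 a p φ Φ k B s)
    (fun σ _ => stp_QQ a p hs.even Φ k B s0.2 σ) s0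
  have e3 : QQ a p φ Φ k B s0.2 s0 = 0 := by
    unfold QQ D0
    simp
  rw [e3, zero_add] at e2
  have q0 : |Ex p Λ N (QQ a p φ Φ k B s0.2) s0| ≤ 1 / 2 * (C ^ 2 * bb V b k) :=
    (Ex_abs hc.p0 hc.p1 Λ N _ s0).trans
      (Ex_le_const hc.p0 hc.p1 Λ N (fun σ => abs_QQ_le hc hs hk1 s0.2 σ) s0)
  have q1 := G1_bd hLTM hc hs hk1 hks N s0.2 s0
  have q4 := G4_bd hLTM hc hs hk1 hks N s0.2 s0
  have q5 := G5_bd hLTM hc hs hk1 hks N s0
  rw [← hΛ] at q1 q4 q5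
  rw [← hB] at q4 q5
  rw [e1, ← e2]
  have ha := aa_nonneg hc b k
  have ht := tt_nonneg hc b k s
  have hbb := bb_nonneg V b k
  have hsq := aa_sq_le V b k
  set K : ℝ := (4 * (b : ℝ) + 1) ^ 2 with hK
  have hK1 : 1 ≤ K := by
    rw [hK]
    have : (0 : ℝ) ≤ b := by positivity
    nlinarith
  have hq : qq V b k s = 1 + bb V b k + tt V b k s ^ 2 := rfl
  have r1 : aa V b k ^ 2 ≤ K * qq V b k s := by
    rw [hq]
    nlinarith [sq_nonneg (tt V b k s)]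
  have r2 : aa V b k * tt V b k s ≤ K * qq V b k s := by
    rw [hq]
    nlinarith [sq_nonneg (aa V b k - tt V b k s), sq_nonneg (tt V b k s)]
  have r3 : aa V b k ≤ K * qq V b k s := by
    rw [hq]
    nlinarith [sq_nonneg (aa V b k - 1), sq_nonneg (tt V b k s)]
  have r4 : bb V b k ≤ qq V b k s := by
    rw [hq]
    nlinarith [sq_nonneg (tt V b k s)]
  have t1 : C ^ 2 * (aa V b k ^ 2 + aa V b k * tt V b k s) ≤ C ^ 2 * (2 * K * qq V b k s) :=
    mul_le_mul_of_nonneg_left (by linarith) (sq_nonneg _)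
  have t2 : C ^ 2 * aa V b k ≤ C ^ 2 * (K * qq V b k s) :=
    mul_le_mul_of_nonneg_left r3 (sq_nonneg _)
  have t3 : 17 * b * C ^ 2 * bb V b k ≤ 17 * b * C ^ 2 * qq V b k s :=
    mul_le_mul_of_nonneg_left r4 (by positivity)
  have t4 : C ^ 2 * bb V b k ≤ C ^ 2 * qq V b k s := mul_le_mul_of_nonneg_left r4 (sq_nonneg _)
  have t5 : 0 ≤ C ^ 2 * qq V b k s := by
    have : 0 ≤ qq V b k s := by rw [hq]; positivity
    positivity
  have u1 := abs_add_le (Rw p Λ N (G1 a p φ Φ b k s0.2) s0 + Rw p Λ N (G4 a p φ Φ k B s0.2) s0 +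
    Ex p Λ N (QQ a p φ Φ k B s0.2) s0) (Rw p Λ N (G5 a p φ Φ k B) s0)
  have u2 := abs_add_le (Rw p Λ N (G1 a p φ Φ b k s0.2) s0 + Rw p Λ N (G4 a p φ Φ k B s0.2) s0)
    (Ex p Λ N (QQ a p φ Φ k B s0.2) s0)
  have u3 := abs_add_le (Rw p Λ N (G1 a p φ Φ b k s0.2) s0) (Rw p Λ N (G4 a p φ Φ k B s0.2) s0)
  have fin : C ^ 2 * (3 * K + 17 * b + 1) * qq V b k s =
      C ^ 2 * (2 * K * qq V b k s) + C ^ 2 * (K * qq V b k s) + 17 * b * C ^ 2 * qq V b k s +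
        C ^ 2 * qq V b k s := by ring
  rw [fin]
  linarith

end Pool.Agent.Helper45.EXC
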